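import Pool.Agent.Helper35.HS3.GoalsA

/-!
# Project HS3: packet CUT (cut-off functions with scaled bounds)
-/

namespace Pool.Agent.Helper89.HS3.CUT

open MeasureTheory Set Filter Topology Metric
open scoped ContDiff
open Pool.Agent.Helper35.HS3

theorem bdd_of {φ : E → ℝ} (h1 : Continuous φ) (h2 : HasCompactSupport φ) :
    ∃ C : ℝ, 0 ≤ C ∧ ∀ x, |φ x| ≤ C := by
  obtain ⟨C, hC⟩ := h2.exists_bound_of_continuous h1
  exact ⟨max C 0, le_max_right _ _, fun x => (hC x).trans (le_max_left _ _)⟩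

theorem proof : CUT_stmt := by
  obtain ⟨B⟩ : Nonempty {b : ContDiffBump (0 : E) // b.rIn = 1 ∧ b.rOut = 2} :=
    ⟨⟨⟨1, 2, one_pos, one_lt_two⟩, rfl, rfl⟩⟩
  obtain ⟨b, hb1, hb2⟩ := B
  obtain ⟨χ₀, hχ₀⟩ : ∃ χ₀ : E → ℝ, χ₀ = b := ⟨_, rfl⟩
  have hsm : ContDiff ℝ 2 χ₀ := by rw [hχ₀]; exact b.contDiff
  have hcs : HasCompactSupport χ₀ := by rw [hχ₀]; exact b.hasCompactSupport
  have h01 : ∀ x, 0 ≤ χ₀ x ∧ χ₀ x ≤ 1 := fun x => by rw [hχ₀]; exact ⟨b.nonneg, b.le_one⟩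
  have hone : ∀ x : E, ‖x‖ ≤ 1 → χ₀ x = 1 := fun x hx => by
    rw [hχ₀]
    exact b.one_of_mem_closedBall (by rw [hb1, mem_closedBall, dist_zero_right]; exact hx)
  have hzero : ∀ x : E, 2 ≤ ‖x‖ → χ₀ x = 0 := fun x hx => by
    rw [hχ₀]
    exact b.zero_of_le_dist (by rw [hb2, dist_zero_right]; exact hx)
  have hsm1 : ContDiff ℝ 1 χ₀ := hsm.of_le (by norm_num)
  choose C1 hC1 hb1' using fun i : Fin 3 => bdd_of (continuous_pd (i := i) hsm1)
    (hasCompactSupport_pd i hcs)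
  choose C2 hC2 hb2' using fun p : Fin 3 × Fin 3 => bdd_of (continuous_pd_pd (i := p.1) (j := p.2) hsm)
    (hasCompactSupport_pd p.1 (hasCompactSupport_pd p.2 hcs))
  have hs1 : ∀ i, C1 i ≤ ∑ i, C1 i := fun i =>
    Finset.single_le_sum (fun i _ => hC1 i) (Finset.mem_univ i)
  have hs2 : ∀ i, C2 i ≤ ∑ i, C2 i := fun i =>
    Finset.single_le_sum (fun i _ => hC2 i) (Finset.mem_univ i)
  have hn1 : 0 ≤ ∑ i, C1 i := Finset.sum_nonneg fun i _ => hC1 i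
  have hn2 : 0 ≤ ∑ i, C2 i := Finset.sum_nonneg fun i _ => hC2 i
  refine ⟨(∑ i, C1 i) + (∑ i, C2 i) + 1, by linarith, fun R hR => ?_⟩
  have hRi : 0 < R⁻¹ := inv_pos.2 hR
  have hpd : ∀ (i : Fin 3) (x : E), pd i (fun y => χ₀ (0 + R⁻¹ • y)) x =
      R⁻¹ * pd i χ₀ (0 + R⁻¹ • x) := fun i x => pd_scale i hsm1 0 R⁻¹ x
  have hpd2 : ∀ (i j : Fin 3) (x : E), pd j (pd i (fun y => χ₀ (0 + R⁻¹ • y))) x =
      R⁻¹ * (R⁻¹ * pd j (pd i χ₀) (0 + R⁻¹ • x)) := by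
    intro i j x
    have e : pd i (fun y => χ₀ (0 + R⁻¹ • y)) = fun x => R⁻¹ * pd i χ₀ (0 + R⁻¹ • x) :=
      funext (hpd i)
    have hc : ContDiff ℝ 1 (pd i χ₀) := contDiff_one_pd hsm
    rw [e, pd_const_mul, pd_scale j hc]
    exact diff_of_one (contDiff_scale hc 0 R⁻¹) x
  refine ⟨fun y => χ₀ (0 + R⁻¹ • y), contDiff_scale hsm 0 R⁻¹, ?_, fun x => h01 _, fun x hx => ?_,
    fun x hx => ?_, fun x i => ?_, fun x i j => ?_⟩
  · refine HasCompactSupport.of_support_subset_isCompact (isCompact_closedBall (0 : E) (2 * R)) ?_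
    intro x hx
    rw [mem_closedBall, dist_zero_right]
    by_contra h
    push Not at h
    apply hx
    apply hzero
    rw [zero_add, norm_smul, Real.norm_of_nonneg hRi.le, ← div_eq_inv_mul, le_div_iff₀ hR]
    exact h.le
  · apply hone
    rw [zero_add, norm_smul, Real.norm_of_nonneg hRi.le, ← div_eq_inv_mul, div_le_one hR]
    exact hx
  · apply hzero
    rw [zero_add, norm_smul, Real.norm_of_nonneg hRi.le, ← div_eq_inv_mul, le_div_iff₀ hR]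
    exact hx
  · rw [hpd, abs_mul, abs_of_pos hRi, div_eq_inv_mul]
    refine mul_le_mul_of_nonneg_left ?_ hRi.le
    have := hb1' i (0 + R⁻¹ • x)
    have := hs1 i
    linarith
  · rw [hpd2, abs_mul, abs_mul, abs_of_pos hRi]
    have e : ((∑ i, C1 i) + (∑ i, C2 i) + 1) / R ^ 2 =
        R⁻¹ * (R⁻¹ * ((∑ i, C1 i) + (∑ i, C2 i) + 1)) := by
      field_simp
    rw [e]
    refine mul_le_mul_of_nonneg_left (mul_le_mul_of_nonneg_left ?_ hRi.le) hRi.le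
    have := hb2' (j, i) (0 + R⁻¹ • x)
    have := hs2 (j, i)
    linarith

end Pool.Agent.Helper89.HS3.CUT
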